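import Pool.Agent.BEP.Stmts

/-!
# Squad BEP, row PEE: products of eigenfunctions
-/

namespace Pool.Agent.BEP.H5

open Set Filter Topology MeasureTheory
open scoped InnerProductSpace ENNReal
open Pool.Agent Pool.Agent.BE01 Pool.Agent.BEG Pool.Agent.BEH

noncomputable section

variable {d m : ℕ}

theorem inner_jn_left (a : En d) (b : En m) (g : En (d + m)) :
    ⟪jn a b, g⟫_ℝ = ⟪a, fs g⟫_ℝ + ⟪b, sn g⟫_ℝ := by
  conv_lhs => rw [← jn_fs_sn g]
  rw [inner_jn]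

theorem cont_fs : Continuous (fun x : En (d + m) => fs x) :=
  (LinearMap.continuous_of_finiteDimensional
    ({ toFun := fs, map_add' := fs_add, map_smul' := fs_smul } : En (d + m) →ₗ[ℝ] En d))

theorem cont_sn : Continuous (fun x : En (d + m) => sn x) :=
  (LinearMap.continuous_of_finiteDimensional
    ({ toFun := sn, map_add' := sn_add, map_smul' := sn_smul } : En (d + m) →ₗ[ℝ] En m))

theorem norm_fs_le (x : En (d + m)) : ‖fs x‖ ≤ ‖x‖ := by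
  have h := norm_jn (fs x) (sn x)
  rw [jn_fs_sn] at h
  exact abs_le_of_sq_le_sq' (by nlinarith [sq_nonneg ‖sn x‖]) (norm_nonneg _) |>.2

theorem norm_sn_le (x : En (d + m)) : ‖sn x‖ ≤ ‖x‖ := by
  have h := norm_jn (fs x) (sn x)
  rw [jn_fs_sn] at h
  exact abs_le_of_sq_le_sq' (by nlinarith [sq_nonneg ‖fs x‖]) (norm_nonneg _) |>.2

theorem cont_grad {n : ℕ} {Ω : Set (En n)} {Ψ : En n → ℝ} (h : BE01F.Test Ω Ψ) :
    Continuous (gradient Ψ) := by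
  have h1 : Continuous (fderiv ℝ Ψ) := h.1.continuous_fderiv (by simp)
  exact (InnerProductSpace.toDual ℝ (En n)).symm.continuous.comp h1

theorem bdd_grad {n : ℕ} {Ω : Set (En n)} {Ψ : En n → ℝ} (h : BE01F.Test Ω Ψ) :
    ∃ C : ℝ, ∀ x, ‖gradient Ψ x‖ ≤ C := by
  have h1 : Continuous (fderiv ℝ Ψ) := h.1.continuous_fderiv (by simp)
  obtain ⟨C, hC⟩ := h1.bounded_above_of_compact_support (h.2.1.fderiv (𝕜 := ℝ))
  refine ⟨C, fun x => ?_⟩
  have : ‖gradient Ψ x‖ = ‖fderiv ℝ Ψ x‖ := by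
    unfold gradient
    exact (InnerProductSpace.toDual ℝ (En n)).symm.norm_map _
  rw [this]; exact hC x

theorem fin_mu {n : ℕ} {Ω : Set (En n)} (h : Dom Ω) : IsFiniteMeasure (mu Ω) :=
  ⟨by rw [mu, Measure.restrict_apply_univ]; exact h.2.1.measure_lt_top⟩

theorem pee (hP : PmpStmt) (hT : PttStmt) (hH : PhhStmt) : PeeStmt := by
  intro d m Ω1 Ω2 l1 l2 u v hO1 hO2 hu hv
  obtain ⟨F, hF, wF⟩ := hu
  obtain ⟨K, hK, wK⟩ := hv
  obtain ⟨e, he, hes, hc1, hc2, hmp, hdom⟩ := hP d m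
  have m1 : MeasurableSet Ω1 := hO1.1.measurableSet
  have m2 : MeasurableSet Ω2 := hO2.1.measurableSet
  haveI : IsFiniteMeasure (mu Ω1) := fin_mu hO1
  haveI : IsFiniteMeasure (mu Ω2) := fin_mu hO2
  refine ⟨_, hH d m Ω1 Ω2 u v F K m1 m2 hF hK, fun Ψ hΨ => ?_⟩
  have hmp' := hmp Ω1 Ω2 m1 m2
  have tr : ∀ f : En d × En m → ℝ,
      ∫ x, f (e x) ∂(mu (Pr Ω1 Ω2)) = ∫ q, f q ∂((mu Ω1).prod (mu Ω2)) := fun f =>
    hmp'.integral_comp' f
  have iu : Integrable u (mu Ω1) := (show MemLp u 2 (mu Ω1) from hF.1).integrable (by norm_num)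
  have iv : Integrable v (mu Ω2) := (show MemLp v 2 (mu Ω2) from hK.1).integrable (by norm_num)
  have iF : Integrable F (mu Ω1) := (show MemLp F 2 (mu Ω1) from hF.2.1).integrable (by norm_num)
  have iK : Integrable K (mu Ω2) := (show MemLp K 2 (mu Ω2) from hK.2.1).integrable (by norm_num)
  obtain ⟨C, hC⟩ := bdd_grad hΨ
  have cg := cont_grad hΨ
  have ctest := (hT d m Ω1 Ω2).2 Ψ hΨ
  -- the left side
  have hL : BE01F.intg (Pr Ω1 Ω2) (fun x =>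
      ⟪jn (v (sn x) • F (fs x)) (u (fs x) • K (sn x)), gradient Ψ x⟫_ℝ) =
      ∫ q : En d × En m, (v q.2 * ⟪F q.1, fs (gradient Ψ (jn q.1 q.2))⟫_ℝ +
        u q.1 * ⟪K q.2, sn (gradient Ψ (jn q.1 q.2))⟫_ℝ) ∂((mu Ω1).prod (mu Ω2)) := by
    rw [← tr]
    show ∫ x, _ ∂(mu (Pr Ω1 Ω2)) = _
    refine integral_congr_ae (ae_of_all _ fun x => ?_)
    simp only [he, jn_fs_sn, inner_jn_left, real_inner_smul_left]
  have hR : BE01F.intg (Pr Ω1 Ω2) (fun x => u (fs x) * v (sn x) * Ψ x) =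
      ∫ q : En d × En m, u q.1 * v q.2 * Ψ (jn q.1 q.2) ∂((mu Ω1).prod (mu Ω2)) := by
    rw [← tr]
    show ∫ x, _ ∂(mu (Pr Ω1 Ω2)) = _
    refine integral_congr_ae (ae_of_all _ fun x => ?_)
    simp only [he, jn_fs_sn]
  rw [hL, hR]
  -- integrability
  have i1 : Integrable (fun q : En d × En m => v q.2 * ⟪F q.1, fs (gradient Ψ (jn q.1 q.2))⟫_ℝ)
      ((mu Ω1).prod (mu Ω2)) := by
    have hb : Integrable (fun q : En d × En m => ‖F q.1‖ * ‖v q.2‖) ((mu Ω1).prod (mu Ω2)) :=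
      iF.norm.mul_prod iv.norm
    refine (hb.mul_const C).mono' ?_ (ae_of_all _ fun q => ?_)
    · exact (iv.aestronglyMeasurable.comp_snd).mul
        ((iF.aestronglyMeasurable.comp_fst).inner
          (cont_fs.comp (cg.comp hc2)).aestronglyMeasurable)
    · rw [norm_mul]
      have h1 : ‖⟪F q.1, fs (gradient Ψ (jn q.1 q.2))⟫_ℝ‖ ≤ ‖F q.1‖ * C :=
        (norm_inner_le_norm _ _).trans
          (mul_le_mul_of_nonneg_left ((norm_fs_le _).trans (hC _)) (norm_nonneg _))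
      calc ‖v q.2‖ * ‖⟪F q.1, fs (gradient Ψ (jn q.1 q.2))⟫_ℝ‖ ≤ ‖v q.2‖ * (‖F q.1‖ * C) :=
            mul_le_mul_of_nonneg_left h1 (norm_nonneg _)
        _ = ‖F q.1‖ * ‖v q.2‖ * C := by ring
  have i2 : Integrable (fun q : En d × En m => u q.1 * ⟪K q.2, sn (gradient Ψ (jn q.1 q.2))⟫_ℝ)
      ((mu Ω1).prod (mu Ω2)) := by
    have hb : Integrable (fun q : En d × En m => ‖u q.1‖ * ‖K q.2‖) ((mu Ω1).prod (mu Ω2)) :=
      iu.norm.mul_prod iK.norm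
    refine (hb.mul_const C).mono' ?_ (ae_of_all _ fun q => ?_)
    · exact (iu.aestronglyMeasurable.comp_fst).mul
        ((iK.aestronglyMeasurable.comp_snd).inner
          (cont_sn.comp (cg.comp hc2)).aestronglyMeasurable)
    · rw [norm_mul]
      have h1 : ‖⟪K q.2, sn (gradient Ψ (jn q.1 q.2))⟫_ℝ‖ ≤ ‖K q.2‖ * C :=
        (norm_inner_le_norm _ _).trans
          (mul_le_mul_of_nonneg_left ((norm_sn_le _).trans (hC _)) (norm_nonneg _))
      calc ‖u q.1‖ * ‖⟪K q.2, sn (gradient Ψ (jn q.1 q.2))⟫_ℝ‖ ≤ ‖u q.1‖ * (‖K q.2‖ * C) :=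
            mul_le_mul_of_nonneg_left h1 (norm_nonneg _)
        _ = ‖u q.1‖ * ‖K q.2‖ * C := by ring
  obtain ⟨D, hD⟩ := (hΨ.1.continuous).bounded_above_of_compact_support hΨ.2.1
  have i3 : Integrable (fun q : En d × En m => u q.1 * v q.2 * Ψ (jn q.1 q.2))
      ((mu Ω1).prod (mu Ω2)) := by
    have hb : Integrable (fun q : En d × En m => u q.1 * v q.2) ((mu Ω1).prod (mu Ω2)) :=
      iu.mul_prod iv
    exact hb.mul_bdd (hΨ.1.continuous.comp hc2).aestronglyMeasurable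
      (ae_of_all _ fun q => hD _)
  rw [integral_add i1 i2]
  have e1 : ∫ q : En d × En m, v q.2 * ⟪F q.1, fs (gradient Ψ (jn q.1 q.2))⟫_ℝ
      ∂((mu Ω1).prod (mu Ω2)) =
      l1 * ∫ q : En d × En m, u q.1 * v q.2 * Ψ (jn q.1 q.2) ∂((mu Ω1).prod (mu Ω2)) := by
    rw [integral_prod_symm _ i1, integral_prod_symm _ i3, ← integral_const_mul]
    refine integral_congr_ae (ae_of_all _ fun z => ?_)
    show ∫ y, v z * ⟪F y, fs (gradient Ψ (jn y z))⟫_ℝ ∂(mu Ω1) =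
      l1 * ∫ y, u y * v z * Ψ (jn y z) ∂(mu Ω1)
    have hw := wF _ (ctest.1 z).1
    have hw' : ∫ y, ⟪F y, fs (gradient Ψ (jn y z))⟫_ℝ ∂(mu Ω1) =
        l1 * ∫ y, u y * Ψ (jn y z) ∂(mu Ω1) := by
      have : BE01F.intg Ω1 (fun y => ⟪F y, gradient (fun y => Ψ (jn y z)) y⟫_ℝ) =
          ∫ y, ⟪F y, fs (gradient Ψ (jn y z))⟫_ℝ ∂(mu Ω1) := by
        show ∫ y, _ ∂(mu Ω1) = _
        refine integral_congr_ae (ae_of_all _ fun y => ?_)
        show ⟪F y, gradient (fun y => Ψ (jn y z)) y⟫_ℝ = _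
        rw [(ctest.1 z).2 y]
      rw [← this]; exact hw
    rw [integral_const_mul, hw']
    have : ∀ y, u y * v z * Ψ (jn y z) = v z * (u y * Ψ (jn y z)) := fun y => by ring
    simp only [this]
    rw [integral_const_mul]
    ring
  have e2 : ∫ q : En d × En m, u q.1 * ⟪K q.2, sn (gradient Ψ (jn q.1 q.2))⟫_ℝ
      ∂((mu Ω1).prod (mu Ω2)) =
      l2 * ∫ q : En d × En m, u q.1 * v q.2 * Ψ (jn q.1 q.2) ∂((mu Ω1).prod (mu Ω2)) := by
    rw [integral_prod _ i2, integral_prod _ i3, ← integral_const_mul]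
    refine integral_congr_ae (ae_of_all _ fun y => ?_)
    show ∫ z, u y * ⟪K z, sn (gradient Ψ (jn y z))⟫_ℝ ∂(mu Ω2) =
      l2 * ∫ z, u y * v z * Ψ (jn y z) ∂(mu Ω2)
    have hw := wK _ (ctest.2 y).1
    have hw' : ∫ z, ⟪K z, sn (gradient Ψ (jn y z))⟫_ℝ ∂(mu Ω2) =
        l2 * ∫ z, v z * Ψ (jn y z) ∂(mu Ω2) := by
      have : BE01F.intg Ω2 (fun z => ⟪K z, gradient (fun z => Ψ (jn y z)) z⟫_ℝ) =
          ∫ z, ⟪K z, sn (gradient Ψ (jn y z))⟫_ℝ ∂(mu Ω2) := by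
        show ∫ z, _ ∂(mu Ω2) = _
        refine integral_congr_ae (ae_of_all _ fun z => ?_)
        show ⟪K z, gradient (fun z => Ψ (jn y z)) z⟫_ℝ = _
        rw [(ctest.2 y).2 z]
      rw [← this]; exact hw
    rw [integral_const_mul, hw']
    have : ∀ z, u y * v z * Ψ (jn y z) = u y * (v z * Ψ (jn y z)) := fun z => by ring
    simp only [this]
    rw [integral_const_mul]
    ring
  rw [e1, e2]
  ring

end

end Pool.Agent.BEP.H5
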